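import Pool.Agent.L5helper59.CC.Code
import Pool.Agent.Y638.RF.Comp
import Pool.Agent.Y649.DG.Gen

set_option autoImplicit false

/-! # The comparator circuit value problem: lower bounds without logarithms -/

namespace Pool.Agent.L5helper59.CC

open Finset Pool.Agent.TH697.Form Pool.Agent.TH697.Row
open Pool.Agent.TH457.Ary.Comp (Item value)

/-- the parameters -/
theorem params {m : ℕ} (hm : 4096 ≤ m) : ∃ h K : ℕ, h + 2 * 2 ^ K ≤ m ∧
    (m : ℝ) / 2 ≤ ((m - h - 2 * 2 ^ K : ℕ) : ℝ) ∧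
    (m : ℝ) * Real.logb 2 m / 6 ≤ (h : ℝ) * K := by
  obtain ⟨n, hn⟩ : ∃ n, n = Nat.log 2 m := ⟨_, rfl⟩
  have hn12 : 12 ≤ n := by
    rw [hn]
    have := Nat.log_mono_right (b := 2) hm
    rwa [show Nat.log 2 4096 = 12 by decide +kernel] at this
  have h1 : 2 ^ n ≤ m := by
    rw [hn]
    exact Nat.pow_log_le_self 2 (by omega)
  have h2 : m < 2 ^ (n + 1) := by
    rw [hn]
    exact Nat.lt_pow_succ_log_self (by norm_num) m
  obtain ⟨K, hK⟩ : ∃ K, n = K + 4 := ⟨n - 4, by omega⟩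
  have h3 : 2 ^ n = 16 * 2 ^ K := by
    rw [hK]
    ring
  obtain ⟨W, hW⟩ : ∃ W, W = 2 ^ K := ⟨_, rfl⟩
  rw [← hW] at h3
  refine ⟨m / 3, K, ?_, ?_, ?_⟩
  · rw [← hW]
    omega
  · rw [← hW]
    have h4 : m ≤ 2 * (m - m / 3 - 2 * W) := by omega
    have h5 : (m : ℝ) ≤ 2 * ((m - m / 3 - 2 * W : ℕ) : ℝ) := by exact_mod_cast h4
    linarith
  · have hm0 : (0 : ℝ) < m := by
      have : 0 < m := by omega
      exact_mod_cast this
    have hl : Real.logb 2 (m : ℝ) ≤ K + 5 := by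
      have h6 : (m : ℝ) ≤ (2 : ℝ) ^ (n + 1) := by exact_mod_cast h2.le
      have h7 := Real.logb_le_logb_of_le (by norm_num : (1 : ℝ) < 2) hm0 h6
      rw [Real.logb_pow, Real.logb_self_eq_one (by norm_num), hK] at h7
      push_cast at h7
      linarith
    have h8 : (m : ℝ) ≤ 3 * ((m / 3 : ℕ) : ℝ) + 2 := by
      have : m ≤ 3 * (m / 3) + 2 := by omega
      exact_mod_cast this
    have hK8 : (8 : ℝ) ≤ K := by
      have : 8 ≤ K := by omega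
      exact_mod_cast this
    have hm' : (4096 : ℝ) ≤ m := by exact_mod_cast hm
    have h9 : (m : ℝ) * Real.logb 2 m ≤ m * (K + 5) := mul_le_mul_of_nonneg_left hl hm0.le
    have h10 : ((m : ℝ) - 2) / 3 * K ≤ ((m / 3 : ℕ) : ℝ) * K :=
      mul_le_mul_of_nonneg_right (by linarith) (by linarith)
    nlinarith

/-- the early comparators -/
def early (m e : ℕ) (he : e ≤ m) : Finset (Fin m ⊕ Fin (m + 3)) :=
  (univ : Finset (Fin e)).map ((Fin.castLEEmb he).trans Function.Embedding.inl)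

theorem mem_early {m e : ℕ} {he : e ≤ m} {a : Fin m ⊕ Fin (m + 3)} (h : a ∈ early m e he) :
    ∃ p : Fin m, p.val < e ∧ a = .inl p := by
  unfold early at h
  rw [mem_map] at h
  obtain ⟨p, -, rfl⟩ := h
  exact ⟨Fin.castLE he p, p.2, rfl⟩

theorem card_early {m e : ℕ} {he : e ≤ m} : (early m e he).card = e := by
  unfold early
  rw [card_map, card_univ, Fintype.card_fin]

/-- Random branching programs which test real formulas. -/
theorem program_bound {m w : ℕ} (hm : 4096 ≤ m) (hw : 1 ≤ w) {Ω : Type} [Fintype Ω] (μ : Ω → ℝ)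
    (hμ : IsProb μ) (s : ℕ)
    (B : Ω → Pool.Agent.Y638.RF.Program (Fin m ⊕ Fin (m + 3)) (Item m (m + 3)) w ((m + 3) ^ 2) s)
    (hB : ApproximatesOn μ (fun ω => (B ω).eval) Proper value) :
    (m : ℝ) ^ 2 ≤ 10000 * w ^ 2 * s := by
  classical
  obtain ⟨hq, hl⟩ := Pool.Agent.TH457.Ary.Comp.logb_q (by omega : 64 ≤ m)
  have hl2 := Pool.Agent.Y638.RF.Comp.logb_small hm
  have hm' : (4096 : ℝ) ≤ m := by exact_mod_cast hm
  have hw' : (1 : ℝ) ≤ w := by exact_mod_cast hw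
  have hs0 : (0 : ℝ) ≤ s := Nat.cast_nonneg s
  have hw2 : (1 : ℝ) ≤ w ^ 2 := by nlinarith
  obtain ⟨l, hl'⟩ : ∃ l : ℝ, l = Real.logb 2 (m : ℝ) := ⟨_, rfl⟩
  obtain ⟨h, K, hK, he, ht⟩ := params hm
  rw [← hl'] at hq hl hl2 ht
  by_cases hs : m ^ 2 ≤ s
  · have h1 : (m : ℝ) ^ 2 ≤ s := by exact_mod_cast hs
    nlinarith
  have hlow := Pool.Agent.Y638.RF.program_lower μ hμ s B Proper value hB
    (Nat.one_le_pow _ _ (by omega)) hw ((m + 3) ^ 2) (m ^ 5)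
    (Pool.Agent.Y638.RF.Comp.sizes hm s (by omega)) 0
    (early m (m - h - 2 * 2 ^ K) (by omega)) (T := Fin h × Fin K) (by
      intro a ha
      obtain ⟨p, hp, rfl⟩ := mem_early ha
      exact asks h K hK p hp)
  rw [card_early, Nat.cast_pow m 5, Real.logb_pow, Fintype.card_prod, Fintype.card_fin,
    Fintype.card_fin] at hlow
  obtain ⟨I, hI'⟩ : ∃ I : ℝ, I = ((m - h - 2 * 2 ^ K : ℕ) : ℝ) := ⟨_, rfl⟩
  obtain ⟨L, hL'⟩ : ∃ L : ℝ, L = Real.logb 2 (((m + 3) ^ 2 : ℕ) : ℝ) := ⟨_, rfl⟩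
  rw [← hI'] at hlow he
  rw [← hL', ← hl'] at hlow
  rw [← hL'] at hq
  push_cast at hlow
  have h1 : (m : ℝ) * l / 81 ≤ (49 / 600 - 0) * ((h : ℝ) * K) - 5 * l := by nlinarith
  have h2 : (m : ℝ) / 2 * (m * l / 81) ≤ I * ((49 / 600 - 0) * ((h : ℝ) * K) - 5 * l) :=
    mul_le_mul he h1 (by positivity) (by linarith)
  have h3 : (w : ℝ) * (3 + 12 * (5 * l) + 2 * (w - 1) * L) ≤ 61 * l * w ^ 2 := by
    have h4 : ((w : ℝ) - 1) * L ≤ (w - 1) * (3 * l) :=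
      mul_le_mul_of_nonneg_left hq (by linarith)
    have h6 : 3 + 12 * (5 * l) + 2 * ((w : ℝ) - 1) * L ≤ 61 * l * w := by nlinarith
    calc (w : ℝ) * (3 + 12 * (5 * l) + 2 * (w - 1) * L) ≤ w * (61 * l * w) :=
          mul_le_mul_of_nonneg_left h6 (by linarith)
      _ = _ := by ring
  have h4 := mul_le_mul_of_nonneg_right h3 hs0
  have h5 : l * (m : ℝ) ^ 2 ≤ l * (10000 * w ^ 2 * s) := by nlinarith
  exact le_of_mul_le_mul_left h5 (by linarith)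

/-- Random formulas with determinant gates. -/
theorem det_bound (hbound : Pool.Agent.Y649.DG.S_BOUND) {m w : ℕ} (hm : 4096 ≤ m) (hw : 1 ≤ w)
    {Ω : Type} [Fintype Ω] (μ : Ω → ℝ) (hμ : IsProb μ) (s : ℕ)
    (F : Ω → Pool.Agent.Y649.DG.Fml (Fin m ⊕ Fin (m + 3)) (Item m (m + 3)) w ((m + 3) ^ 2))
    (hs : ∀ ω, (F ω).size ≤ s)
    (hF : ApproximatesOn μ (fun ω => (F ω).accepts) Proper value) :
    (m : ℝ) ^ 3 ≤ 230000000 * w ^ 3 * s ^ 2 := by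
  classical
  obtain ⟨hq, hl⟩ := Pool.Agent.TH457.Ary.Comp.logb_q (by omega : 64 ≤ m)
  have hm' : (4096 : ℝ) ≤ m := by exact_mod_cast hm
  have hw' : (1 : ℝ) ≤ w := by exact_mod_cast hw
  have hs0 : (0 : ℝ) ≤ s := Nat.cast_nonneg s
  obtain ⟨l, hl'⟩ : ∃ l : ℝ, l = Real.logb 2 (m : ℝ) := ⟨_, rfl⟩
  obtain ⟨h, K, hK, he, ht⟩ := params hm
  rw [← hl'] at hq hl ht
  by_cases hsm : m ^ 2 ≤ s
  · have h1 : (m : ℝ) ^ 2 ≤ s := by exact_mod_cast hsm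
    have h2 : (m : ℝ) ^ 3 ≤ (s : ℝ) ^ 2 := by
      calc (m : ℝ) ^ 3 ≤ ((m : ℝ) ^ 2) ^ 2 := by
            rw [← pow_mul]
            exact pow_le_pow_right₀ (by linarith) (by norm_num)
        _ ≤ (s : ℝ) ^ 2 := pow_le_pow_left₀ (by positivity) h1 2
    have h3 : (1 : ℝ) ≤ w ^ 3 := one_le_pow₀ hw'
    have h4 : (1 : ℝ) ≤ 230000000 * w ^ 3 := by nlinarith
    have h5 : 0 ≤ (s : ℝ) ^ 2 := by positivity
    nlinarith
  have hM : 4 * (m + 3) ^ 2 * (5 * s + 1) + 2 + s ≤ m ^ 5 := by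
    have h1 : s < m ^ 2 := by omega
    have h2 : (m + 3) ^ 2 ≤ 2 * m ^ 2 := by nlinarith
    have h3 : 4 * (m + 3) ^ 2 * (5 * s + 1) ≤ 4 * (2 * m ^ 2) * (5 * m ^ 2) :=
      Nat.mul_le_mul (Nat.mul_le_mul_left _ h2) (by omega)
    have h4 : 4 * (2 * m ^ 2) * (5 * m ^ 2) = 40 * m ^ 4 := by ring
    have h5 : m ^ 2 ≤ m ^ 4 := Nat.pow_le_pow_right (by omega) (by norm_num)
    have h6 : 4096 * m ^ 4 ≤ m ^ 5 := by
      calc 4096 * m ^ 4 ≤ m * m ^ 4 := Nat.mul_le_mul_right _ hm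
        _ = m ^ 5 := by ring
    have h7 : 1 ≤ m ^ 4 := Nat.one_le_pow _ _ (by omega)
    omega
  have hLL : 1 + 5 * Real.logb 2 ((m ^ 5 : ℕ) : ℝ) +
      ((w : ℝ) - 1) * Real.logb 2 (((m + 3) ^ 2 : ℕ) : ℝ) ≤ 26 * w * l := by
    rw [Nat.cast_pow m 5, Real.logb_pow, ← hl']
    have h4 : ((w : ℝ) - 1) * Real.logb 2 (((m + 3) ^ 2 : ℕ) : ℝ) ≤ (w - 1) * (3 * l) :=
      mul_le_mul_of_nonneg_left hq (by linarith)
    have h5 : 0 ≤ ((w : ℝ) - 1) * l := mul_nonneg (by linarith) (by linarith)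
    rw [show ((5 : ℕ) : ℝ) = 5 by norm_num]
    nlinarith
  have h7 := Pool.Agent.Y649.DG.bound_sq hbound μ hμ F Proper value hF s hs
    (Nat.one_le_pow _ _ (by omega)) hw ((m + 3) ^ 2) (m ^ 5) hM 0 (by norm_num)
    (early m (m - h - 2 * 2 ^ K) (by omega)) (T := Fin h × Fin K) (by
      intro a ha
      obtain ⟨p, hp, rfl⟩ := mem_early ha
      exact asks h K hK p hp) ((m : ℝ) * l / 6) (by nlinarith) (by
      rw [Fintype.card_prod, Fintype.card_fin, Fintype.card_fin]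
      push_cast
      exact ht) (26 * w * l) hLL
  rw [card_early] at h7
  obtain ⟨I, hI'⟩ : ∃ I : ℝ, I = ((m - h - 2 * 2 ^ K : ℕ) : ℝ) := ⟨_, rfl⟩
  rw [← hI'] at h7 he
  have h8 : ((m : ℝ) / 2) ^ 2 * (m * l / 6) ≤ I ^ 2 * (m * l / 6) :=
    mul_le_mul_of_nonneg_right (pow_le_pow_left₀ (by positivity) he 2) (by positivity)
  have h9 : l * (m : ℝ) ^ 3 ≤ l * (230000000 * w ^ 3 * s ^ 2) := by
    have e1 : ((m : ℝ) / 2) ^ 2 * (m * l / 6) = l * m ^ 3 / 24 := by ring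
    have e2 : 360000 * (w : ℝ) ^ 2 * (26 * w * l) * s ^ 2 = l * (224640000 * w ^ 3 * s ^ 2) / 24 := by
      ring
    rw [e1] at h8
    rw [e2] at h7
    have h10 : 0 ≤ l * ((w : ℝ) ^ 3 * s ^ 2) := by positivity
    nlinarith
  exact le_of_mul_le_mul_left h9 (by linarith)

end Pool.Agent.L5helper59.CC
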