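import Pool.Agent.Y638.RF.Blk
import Pool.Agent.TH457.Ary.Comp

set_option autoImplicit false

/-! # Comparator circuits: every early comparator can ask for `m log m` bits

The circuit has `m` comparators and the wires `0` (the output), `1`, `2` (idle), `3 + i` (`i < h`, the
words), `3 + h + j` and `3 + h + W + j` (`j < W`, targets and markers), where `h + 2 W ≤ m`. The last
`2 W` comparators compare two numbers below `W`. -/

namespace Pool.Agent.L5helper59.CC

open Finset Pool.Agent.TH457.Ary.Comp Pool.Agent.Y638.RF
open Pool.Agent.TH457.Ary (queries_of_update)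

section sem

variable {m : ℕ} (h W : ℕ) (wd : ℕ → ℕ)

/-- the comparator at the position `τ` -/
def gate (m : ℕ) (τ : ℕ) : Fin (m + 3) × Fin (m + 3) :=
  if τ < m - h - 2 * W then (wire m 1, wire m 2)
  else if τ < m - 2 * W then
    (wire m (3 + (τ - (m - h - 2 * W))), wire m (3 + h + wd (τ - (m - h - 2 * W))))
  else if (τ - (m - 2 * W)) % 2 = 0 then
    (wire m 0, wire m (3 + h + W + (τ - (m - 2 * W)) / 2))
  else (wire m (3 + h + (τ - (m - 2 * W)) / 2), wire m 0)

/-- the initial bits -/
def start (m : ℕ) (a : Fin (m + 3)) : Bool := decide (a.val = 0 ∨ a.val = 2 ∨ 3 + h + W ≤ a.val)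

/-- the other items -/
def restX (m : ℕ) : ∀ i, Item m (m + 3) i
  | .inl p => gate h W wd m p.val
  | .inr a => start h W m a

variable {h W wd} {N : ℕ}

theorem apply_of_false (g : Fin N × Fin N) (x : Fin N → Bool) (h1 : x g.1 = false) :
    apply g x = x := by
  unfold apply
  rw [h1]
  simp only [Bool.false_and, Bool.false_or]
  have e : Function.update x g.1 false = x := by
    rw [← h1]
    exact Function.update_eq_self g.1 x
  rw [e]
  exact Function.update_eq_self g.2 x

theorem apply_of_ne (g : Fin N × Fin N) (x : Fin N → Bool) (a : Fin N) (h1 : a ≠ g.1)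
    (h2 : a ≠ g.2) : apply g x a = x a := by
  unfold apply
  rw [Function.update_of_ne h2, Function.update_of_ne h1]

theorem apply_snd (g : Fin N × Fin N) (x : Fin N → Bool) : apply g x g.2 = (x g.1 || x g.2) := by
  unfold apply
  rw [Function.update_self]

theorem apply_fst (g : Fin N × Fin N) (x : Fin N → Bool) (hg : g.1 ≠ g.2) :
    apply g x g.1 = (x g.1 && x g.2) := by
  unfold apply
  rw [Function.update_of_ne hg, Function.update_self]

/-- the bits after the comparators of one kind -/
theorem last_step (x : Fin N → Bool) (H B C : Fin N) (hB : H ≠ B) (hC : C ≠ H) (hBC : B ≠ C) :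
    apply (C, H) (apply (H, B) x) H = (x C || (x H && x B)) ∧
      ∀ a, a ≠ H → a ≠ B → a ≠ C → apply (C, H) (apply (H, B) x) a = x a := by
  constructor
  · have e := apply_snd (C, H) (apply (H, B) x)
    simp only at e
    rw [e, apply_of_ne (H, B) x C hC hBC.symm]
    have e2 := apply_fst (H, B) x hB
    simp only at e2
    rw [e2]
  · intro a h1 h2 h3
    rw [apply_of_ne _ _ a h3 h1, apply_of_ne _ _ a h1 h2]

end sem

section run

variable {m h W : ℕ} {wd : ℕ → ℕ} (hm : h + 2 * W ≤ m) (hwd : ∀ i, wd i < W)
  (p : Fin m) (i0 b : ℕ) (hi0 : i0 < h) (hb : b < W)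

/-- the input -/
abbrev inpX (h W : ℕ) (wd : ℕ → ℕ) (p : Fin m) (i0 b : ℕ) : ∀ i, Item m (m + 3) i :=
  Function.update (restX h W wd m) (.inl p) (wire m (3 + h + W + b), wire m (3 + i0))

theorem inpX_bit (a : Fin (m + 3)) : inpX h W wd p i0 b (.inr a) = start h W m a := by
  simp only [inpX]
  rw [Function.update_of_ne (by simp)]
  rfl

theorem inpX_self : inpX h W wd p i0 b (.inl p) = (wire m (3 + h + W + b), wire m (3 + i0)) := by
  simp only [inpX]
  rw [Function.update_self]

theorem inpX_other (p' : Fin m) (hp : p' ≠ p) :
    inpX h W wd p i0 b (.inl p') = gate h W wd m p'.val := by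
  simp only [inpX]
  rw [Function.update_of_ne (by simpa using hp)]
  rfl

/-- the bits after the question -/
def asked (m h W : ℕ) (i0 b s : ℕ) (wd : ℕ → ℕ) (a : Fin (m + 3)) : Bool :=
  if a.val = 3 + i0 then decide (s ≤ i0)
  else if a.val = 3 + h + wd i0 then decide (i0 < s)
  else if a.val = 3 + h + W + b then false
  else decide (a.val = 0 ∨ a.val = 2 ∨ 3 + h + W ≤ a.val)

theorem phase0 (hp : p.val < m - h - 2 * W) (τ : ℕ) (hτ : τ ≤ p.val) (a : Fin (m + 3)) :
    bits (inpX h W wd p i0 b) τ a = start h W m a := by
  induction τ generalizing a with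
  | zero => exact inpX_bit p i0 b a
  | succ τ ih =>
    have hτm : τ < m := by omega
    have hne : (⟨τ, hτm⟩ : Fin m) ≠ p := by
      intro h1
      have := congrArg Fin.val h1
      simp only at this
      omega
    have ih' : bits (inpX h W wd p i0 b) τ = start h W m := funext fun a => ih (by omega) a
    simp only [bits, dif_pos hτm]
    rw [inpX_other p i0 b _ hne, ih']
    have e : gate h W wd m τ = (wire m 1, wire m 2) := by
      unfold gate
      rw [if_pos (by omega)]
    simp only [e]
    rw [apply_of_false]
    simp only [start, wire_val (by omega : 1 < m + 3)]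
    simp
    omega

include hm hi0 hb hwd in
theorem phase1 (hp : p.val < m - h - 2 * W) (a : Fin (m + 3)) :
    bits (inpX h W wd p i0 b) (p.val + 1) a = asked m h W i0 b 0 wd a := by
  have h0 : bits (inpX h W wd p i0 b) p.val = start h W m :=
    funext fun a => phase0 p i0 b hp p.val le_rfl a
  have hpm : p.val < m := p.2
  simp only [bits, dif_pos hpm]
  rw [h0]
  have e : (⟨p.val, hpm⟩ : Fin m) = p := rfl
  rw [e, inpX_self]
  have hw := hwd i0
  have v1 : (wire m (3 + h + W + b)).val = 3 + h + W + b := wire_val (by omega)
  have v2 : (wire m (3 + i0)).val = 3 + i0 := wire_val (by omega)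
  have hne : wire m (3 + h + W + b) ≠ wire m (3 + i0) := by
    intro hh
    have := congrArg Fin.val hh
    rw [v1, v2] at this
    omega
  by_cases ha2 : a = wire m (3 + i0)
  · subst ha2
    rw [apply_snd]
    simp only [start, asked, v1, v2]
    simp
  · have ha2' : a.val ≠ 3 + i0 := by
      intro hh
      exact ha2 (Fin.ext (by rw [hh, v2]))
    by_cases ha1 : a = wire m (3 + h + W + b)
    · subst ha1
      have e1 := apply_fst (wire m (3 + h + W + b), wire m (3 + i0)) (start h W m) hne
      simp only at e1
      rw [e1]
      simp only [start, asked, v1, v2]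
      rw [if_neg (by omega), if_neg (by omega), if_pos trivial]
      have : decide (3 + i0 = 0 ∨ 3 + i0 = 2 ∨ 3 + h + W ≤ 3 + i0) = false := by
        rw [decide_eq_false_iff_not]
        omega
      rw [this, Bool.and_false]
    · have ha1' : a.val ≠ 3 + h + W + b := by
        intro hh
        exact ha1 (Fin.ext (by rw [hh, v1]))
      rw [apply_of_ne _ _ a ha1 ha2]
      simp only [start, asked]
      rw [if_neg ha2', if_neg ha1']
      split_ifs with h3
      · rw [h3]
        rw [decide_eq_decide]
        omega
      · rfl

include hm hi0 hb hwd in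
theorem phase2 (hp : p.val < m - h - 2 * W) (τ : ℕ) (hτ : p.val < τ) (hτ2 : τ ≤ m - h - 2 * W)
    (a : Fin (m + 3)) :
    bits (inpX h W wd p i0 b) τ a = asked m h W i0 b 0 wd a := by
  induction τ, hτ using Nat.le_induction generalizing a with
  | base => exact phase1 hm hwd p i0 b hi0 hb hp a
  | succ τ hτ ih =>
    have hτm : τ < m := by omega
    have hne : (⟨τ, hτm⟩ : Fin m) ≠ p := by
      intro h1
      have := congrArg Fin.val h1
      simp only at this
      omega
    have ih' : bits (inpX h W wd p i0 b) τ = asked m h W i0 b 0 wd :=
      funext fun a => ih (by omega) a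
    simp only [bits, dif_pos hτm]
    rw [inpX_other p i0 b _ hne, ih']
    have e : gate h W wd m τ = (wire m 1, wire m 2) := by
      unfold gate
      rw [if_pos (by omega)]
    simp only [e]
    rw [apply_of_false]
    have hw := hwd i0
    simp only [asked, wire_val (by omega : 1 < m + 3)]
    rw [if_neg (by omega), if_neg (by omega), if_neg (by omega), decide_eq_false_iff_not]
    omega

include hm hi0 hb hwd in
theorem phase3 (hp : p.val < m - h - 2 * W) (s : ℕ) (hs : s ≤ h) (a : Fin (m + 3)) :
    bits (inpX h W wd p i0 b) (m - h - 2 * W + s) a = asked m h W i0 b s wd a := by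
  induction s generalizing a with
  | zero => exact phase2 hm hwd p i0 b hi0 hb hp _ (by omega) (by omega) a
  | succ s ih =>
    have hτm : m - h - 2 * W + s < m := by omega
    have hne : (⟨m - h - 2 * W + s, hτm⟩ : Fin m) ≠ p := by
      intro h1
      have := congrArg Fin.val h1
      simp only at this
      omega
    have ih' : bits (inpX h W wd p i0 b) (m - h - 2 * W + s) = asked m h W i0 b s wd :=
      funext fun a => ih (by omega) a
    rw [← add_assoc]
    simp only [bits, dif_pos hτm]
    rw [inpX_other p i0 b _ hne, ih']
    have hw := hwd i0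
    have hws := hwd s
    have e : gate h W wd m (m - h - 2 * W + s) = (wire m (3 + s), wire m (3 + h + wd s)) := by
      unfold gate
      rw [if_neg (by omega), if_pos (by omega)]
      rw [show m - h - 2 * W + s - (m - h - 2 * W) = s by omega]
    simp only [e]
    have v1 : (wire m (3 + s)).val = 3 + s := wire_val (by omega)
    have v2 : (wire m (3 + h + wd s)).val = 3 + h + wd s := wire_val (by omega)
    by_cases hsi : s = i0
    · subst hsi
      by_cases ha2 : a = wire m (3 + h + wd s)
      · subst ha2
        rw [apply_snd]
        simp only [asked, v1, v2]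
        simp
        omega
      · have ha2' : a.val ≠ 3 + h + wd s := by
          intro hh
          exact ha2 (Fin.ext (by rw [hh, v2]))
        by_cases ha1 : a = wire m (3 + s)
        · subst ha1
          have hne : (wire m (3 + s), wire m (3 + h + wd s)).1 ≠
              (wire m (3 + s), wire m (3 + h + wd s)).2 := by
            intro hh
            have := congrArg Fin.val hh
            simp only at this
            rw [v1, v2] at this
            omega
          have e1 := apply_fst (wire m (3 + s), wire m (3 + h + wd s))
            (asked m h W s b s wd) hne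
          simp only at e1
          rw [e1]
          simp only [asked, v1, v2]
          rw [if_neg (by omega : ¬ (3 + h + wd s = 3 + s))]
          simp
        · have ha1' : a.val ≠ 3 + s := by
            intro hh
            exact ha1 (Fin.ext (by rw [hh, v1]))
          rw [apply_of_ne _ _ a ha1 ha2]
          simp only [asked]
          rw [if_neg ha1', if_neg ha2', if_neg ha1', if_neg ha2']
    · rw [apply_of_false]
      · simp only [asked]
        split_ifs with h1 h2 h3
        · rw [decide_eq_decide]
          omega
        · rw [decide_eq_decide]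
          omega
        · rfl
        · rfl
      · simp only [asked, v1]
        rw [if_neg (by omega), if_neg (by omega), if_neg (by omega), decide_eq_false_iff_not]
        omega

include hm hi0 hb hwd in
theorem phase4 (hp : p.val < m - h - 2 * W) (j : ℕ) (hj : j ≤ W) :
    bits (inpX h W wd p i0 b) (m - 2 * W + 2 * j) (wire m 0) =
        decide (j ≤ b ∨ (b ≤ wd i0 ∧ wd i0 < j)) ∧
      ∀ j', j ≤ j' → j' < W →
        bits (inpX h W wd p i0 b) (m - 2 * W + 2 * j) (wire m (3 + h + W + j')) =
          decide (j' ≠ b) ∧
        bits (inpX h W wd p i0 b) (m - 2 * W + 2 * j) (wire m (3 + h + j')) =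
          decide (j' = wd i0) := by
  have hw := hwd i0
  induction j with
  | zero =>
    have e : m - 2 * W + 2 * 0 = m - h - 2 * W + h := by omega
    rw [e]
    simp only [phase3 hm hwd p i0 b hi0 hb hp h le_rfl]
    refine ⟨?_, ?_⟩
    · simp only [asked, wire_val (by omega : 0 < m + 3)]
      rw [if_neg (by omega), if_neg (by omega), if_neg (by omega), decide_eq_decide]
      exact ⟨fun _ => Or.inl (Nat.zero_le _), fun _ => Or.inl trivial⟩
    · intro j' _ hj'
      constructor
      · simp only [asked, wire_val (by omega : 3 + h + W + j' < m + 3)]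
        rw [if_neg (by omega), if_neg (by omega)]
        split_ifs with h1
        · symm
          rw [decide_eq_false_iff_not]
          omega
        · rw [decide_eq_decide]
          omega
      · simp only [asked, wire_val (by omega : 3 + h + j' < m + 3)]
        rw [if_neg (by omega)]
        split_ifs with h1 h2
        · rw [decide_eq_decide]
          omega
        · omega
        · rw [decide_eq_decide]
          omega
  | succ j ih =>
    obtain ⟨ih1, ih2⟩ := ih (by omega)
    obtain ⟨x, hx⟩ : ∃ x, x = bits (inpX h W wd p i0 b) (m - 2 * W + 2 * j) := ⟨_, rfl⟩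
    have hstep : bits (inpX h W wd p i0 b) (m - 2 * W + 2 * (j + 1)) =
        apply (wire m (3 + h + j), wire m 0) (apply (wire m 0, wire m (3 + h + W + j)) x) := by
      have e1 : m - 2 * W + 2 * (j + 1) = m - 2 * W + 2 * j + 1 + 1 := by ring
      have h1 : m - 2 * W + 2 * j < m := by omega
      have h2 : m - 2 * W + 2 * j + 1 < m := by omega
      have hne1 : (⟨m - 2 * W + 2 * j, h1⟩ : Fin m) ≠ p := by
        intro h1
        have := congrArg Fin.val h1
        simp only at this
        omega
      have hne2 : (⟨m - 2 * W + 2 * j + 1, h2⟩ : Fin m) ≠ p := by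
        intro h1
        have := congrArg Fin.val h1
        simp only at this
        omega
      rw [e1]
      simp only [bits, dif_pos h1, dif_pos h2]
      rw [inpX_other p i0 b _ hne1, inpX_other p i0 b _ hne2, ← hx]
      have g1 : gate h W wd m (m - 2 * W + 2 * j) = (wire m 0, wire m (3 + h + W + j)) := by
        unfold gate
        rw [if_neg (by omega), if_neg (by omega), if_pos (by omega)]
        rw [show (m - 2 * W + 2 * j - (m - 2 * W)) / 2 = j by omega]
      have g2 : gate h W wd m (m - 2 * W + 2 * j + 1) = (wire m (3 + h + j), wire m 0) := by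
        unfold gate
        rw [if_neg (by omega), if_neg (by omega), if_neg (by omega)]
        rw [show (m - 2 * W + 2 * j + 1 - (m - 2 * W)) / 2 = j by omega]
      simp only [g1, g2]
    have n1 : wire m 0 ≠ wire m (3 + h + W + j) := by
      intro hh
      have := wire_inj (by omega) (by omega) hh
      omega
    have n2 : wire m (3 + h + j) ≠ wire m 0 := by
      intro hh
      have := wire_inj (by omega) (by omega) hh
      omega
    have n3 : wire m (3 + h + W + j) ≠ wire m (3 + h + j) := by
      intro hh
      have := wire_inj (by omega) (by omega) hh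
      omega
    obtain ⟨k1, k2⟩ := last_step x (wire m 0) (wire m (3 + h + W + j)) (wire m (3 + h + j)) n1 n2 n3
    rw [hstep]
    rw [← hx] at ih1 ih2
    refine ⟨?_, ?_⟩
    · rw [k1, (ih2 j le_rfl (by omega)).1, (ih2 j le_rfl (by omega)).2, ih1]
      rw [Bool.eq_iff_iff]
      simp only [Bool.or_eq_true, Bool.and_eq_true, decide_eq_true_eq]
      omega
    · intro j' hj1 hj2
      have m1 : wire m (3 + h + W + j') ≠ wire m 0 := by
        intro hh
        have := wire_inj (by omega) (by omega) hh
        omega
      have m2 : wire m (3 + h + W + j') ≠ wire m (3 + h + W + j) := by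
        intro hh
        have := wire_inj (by omega) (by omega) hh
        omega
      have m3 : wire m (3 + h + W + j') ≠ wire m (3 + h + j) := by
        intro hh
        have := wire_inj (by omega) (by omega) hh
        omega
      have m4 : wire m (3 + h + j') ≠ wire m 0 := by
        intro hh
        have := wire_inj (by omega) (by omega) hh
        omega
      have m5 : wire m (3 + h + j') ≠ wire m (3 + h + W + j) := by
        intro hh
        have := wire_inj (by omega) (by omega) hh
        omega
      have m6 : wire m (3 + h + j') ≠ wire m (3 + h + j) := by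
        intro hh
        have := wire_inj (by omega) (by omega) hh
        omega
      rw [k2 _ m1 m2 m3, k2 _ m4 m5 m6]
      exact ih2 j' (by omega) hj2

include hm hi0 hb hwd in
/-- the question: is the word at least `b`? -/
theorem value_inpX (hp : p.val < m - h - 2 * W) :
    value (inpX h W wd p i0 b) = decide (b ≤ wd i0) := by
  have h1 := (phase4 hm hwd p i0 b hi0 hb hp W le_rfl).1
  have e : m - 2 * W + 2 * W = m := by omega
  rw [e] at h1
  have e0 : (0 : Fin (m + 3)) = wire m 0 := by
    apply Fin.ext
    rw [wire_val (by omega)]
    simp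
  unfold value
  rw [e0, h1, decide_eq_decide]
  have := hwd i0
  omega

end run

section code

/-- the number given by the first `k` bits -/
def pre (K : ℕ) (f : ℕ → Bool) (k : ℕ) : ℕ := ∑ j ∈ range k, if f j then 2 ^ (K - 1 - j) else 0

theorem pre_succ (K : ℕ) (f : ℕ → Bool) (k : ℕ) :
    pre K f (k + 1) = pre K f k + if f k then 2 ^ (K - 1 - k) else 0 := by
  unfold pre
  rw [sum_range_succ]

theorem pre_mono (K : ℕ) (f : ℕ → Bool) {k l : ℕ} (h : k ≤ l) : pre K f k ≤ pre K f l := by
  unfold pre
  exact sum_le_sum_of_subset (fun a ha => by
    rw [mem_range] at ha ⊢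
    omega)

theorem pre_lt (K : ℕ) (f : ℕ → Bool) (d k : ℕ) (hk : k + d = K) :
    pre K f K + 1 ≤ pre K f k + 2 ^ d := by
  induction d generalizing k with
  | zero =>
    have : k = K := by omega
    subst this
    simp
  | succ d ih =>
    have h1 := ih (k + 1) (by omega)
    rw [pre_succ] at h1
    have h2 : K - 1 - k = d := by omega
    rw [h2] at h1
    have h3 : 2 ^ (d + 1) = 2 ^ d + 2 ^ d := by ring
    have h4 : 0 < 2 ^ d := by positivity
    split_ifs at h1 <;> omega

theorem pre_lt_pow (K : ℕ) (f : ℕ → Bool) : pre K f K < 2 ^ K := by
  have := pre_lt K f K 0 (by omega)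
  have h : pre K f 0 = 0 := by simp [pre]
  omega

/-- the threshold -/
theorem thr_le_iff (K : ℕ) (f : ℕ → Bool) (k : ℕ) (hk : k < K) :
    (pre K f k + 2 ^ (K - 1 - k) ≤ pre K f K) ↔ f k = true := by
  have h1 := pre_mono K f (by omega : k + 1 ≤ K)
  have h2 := pre_lt K f (K - 1 - k) (k + 1) (by omega)
  rw [pre_succ] at h1 h2
  constructor
  · intro h
    by_contra hf
    rw [if_neg hf] at h2
    omega
  · intro h
    rw [if_pos h] at h1
    exact h1

theorem pre_congr (K : ℕ) (f g : ℕ → Bool) (k : ℕ) (h : ∀ j < k, f j = g j) :
    pre K f k = pre K g k := by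
  unfold pre
  apply sum_congr rfl
  intro j hj
  rw [mem_range] at hj
  rw [h j hj]

variable {m : ℕ} (h K : ℕ)

/-- the bits of the words -/
def word (z : Fin h × Fin K → Bool) (i j : ℕ) : Bool :=
  if hi : i < h then (if hj : j < K then z (⟨i, hi⟩, ⟨j, hj⟩) else false) else false

/-- The comparators of a circuit are proper. -/
def Proper {m N : ℕ} (x : ∀ i, Item m N i) : Prop := ∀ p : Fin m, (x (.inl p)).1 ≠ (x (.inl p)).2

theorem asks (hm : h + 2 * 2 ^ K ≤ m) (p : Fin m) (hp : p.val < m - h - 2 * 2 ^ K) :
    Asks (D := Item m (m + 3)) (Fin h × Fin K) ((m + 3) ^ 2) 0 Proper value (.inl p) := by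
  have hfin : Fintype (Item m (m + 3) (.inl p)) :=
    inferInstanceAs (Fintype (Fin (m + 3) × Fin (m + 3)))
  have hwd : ∀ (z : Fin h × Fin K → Bool) (i : ℕ), pre K (word h K z i) K < 2 ^ K :=
    fun z i => pre_lt_pow K _
  have hthr : ∀ (z : Fin h × Fin K → Bool) (i : ℕ) (k : ℕ), k < K →
      pre K (word h K z i) k + 2 ^ (K - 1 - k) < 2 ^ K := by
    intro z i k hk
    -- with the bit `k` set this is the beginning of a number below `2 ^ K`
    have h1 := pre_lt_pow K (fun j => if j < k then word h K z i j else decide (j = k))
    have h2 := pre_mono K (fun j => if j < k then word h K z i j else decide (j = k))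
      (by omega : k + 1 ≤ K)
    rw [pre_succ] at h2
    have h3 : pre K (fun j => if j < k then word h K z i j else decide (j = k)) k =
        pre K (word h K z i) k := by
      apply pre_congr
      intro j hj
      rw [if_pos hj]
    rw [h3] at h2
    simp only [lt_self_iff_false, if_false, decide_true, if_true] at h2
    omega
  have hq := queries_of_update (T := Fin h × Fin K) (D := Item m (m + 3)) Proper value (.inl p)
    (fun t => t.2.val)
    (fun t z => (wire m (3 + h + 2 ^ K + (pre K (word h K z t.1.val) t.2.val +
      2 ^ (K - 1 - t.2.val))), wire m (3 + t.1.val)))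
    (fun z => restX h (2 ^ K) (fun i => pre K (word h K z i) K) m)
    (by
      intro t z z' hz
      have e : pre K (word h K z t.1.val) t.2.val = pre K (word h K z' t.1.val) t.2.val := by
        apply pre_congr
        intro j hj
        unfold word
        rw [dif_pos t.1.2, dif_pos (by omega : j < K), dif_pos t.1.2, dif_pos (by omega : j < K)]
        exact hz _ hj
      rw [e])
    (by
      intro t z p'
      have ht1 := t.1.2
      have ht := hthr z t.1.val t.2.val t.2.2
      have hd : 0 < 2 ^ (K - 1 - t.2.val) := by positivity
      have hW : 0 < 2 ^ K := by positivity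
      by_cases hpp : p' = p
      · subst hpp
        rw [Function.update_self]
        intro hh
        change wire m _ = wire m _ at hh
        have := wire_inj (by omega) (by omega) hh
        omega
      · rw [Function.update_of_ne (by simpa using hpp)]
        simp only [restX]
        unfold gate
        have hp' := p'.2
        split_ifs with h1 h2 h3
        · intro hh
          change wire m _ = wire m _ at hh
          have := wire_inj (by omega) (by omega) hh
          omega
        · intro hh
          have hw := hwd z (p'.val - (m - h - 2 * 2 ^ K))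
          change wire m _ = wire m (3 + h + pre K (word h K z (p'.val - (m - h - 2 * 2 ^ K))) K) at hh
          have := wire_inj (by omega) (by omega) hh
          omega
        · intro hh
          change wire m _ = wire m _ at hh
          have := wire_inj (by omega) (by omega) hh
          omega
        · intro hh
          change wire m _ = wire m _ at hh
          have := wire_inj (by omega) (by omega) hh
          omega)
    (by
      intro t z
      have h1 := value_inpX (m := m) (wd := fun i => pre K (word h K z i) K) hm (hwd z) p t.1.val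
        (pre K (word h K z t.1.val) t.2.val + 2 ^ (K - 1 - t.2.val)) t.1.2
        (hthr z t.1.val t.2.val t.2.2) hp
      refine h1.trans ?_
      rw [Bool.eq_iff_iff, decide_eq_true_eq]
      rw [thr_le_iff K _ _ t.2.2]
      unfold word
      rw [dif_pos t.1.2, dif_pos t.2.2])
  have hA := asks_of_queries hq
  have e : Fintype.card (Item m (m + 3) (.inl p)) = (m + 3) ^ 2 := by
    have e1 : Fintype.card (Item m (m + 3) (.inl p)) = Fintype.card (Fin ((m + 3) * (m + 3))) :=
      Fintype.card_congr (finProdFinEquiv : Fin (m + 3) × Fin (m + 3) ≃ Fin ((m + 3) * (m + 3)))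
    rw [e1, Fintype.card_fin]
    ring
  rw [e] at hA
  exact hA

end code

end Pool.Agent.L5helper59.CC
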